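import Pool.Agent.H6.FB.Stmts

/-!
# Project FB (MP_d89f1e_an): module OSB
-/

set_option autoImplicit false

open Metric Set Filter Topology

namespace Pool.Agent.H6.FB

theorem osb_thm (hDIF : DIFStmt) : OSBStmt := by
  intro n hn E F _ _ _ _ _ _ hE hF f U hU hf hinj p hp hne
  have : CompleteSpace E := FiniteDimensional.complete ℂ E
  have : CompleteSpace F := FiniteDimensional.complete ℂ F
  have hcd : ContDiffAt ℂ 1 f p := ((hDIF E F f U hU hf).2.1 1).contDiffAt (hU.mem_nhds hp)
  have hfd : HasFDerivAt f (fderiv ℂ f p) p := (hf.differentiableAt (hU.mem_nhds hp)).hasFDerivAt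
  obtain ⟨v, hv⟩ : ∃ v, fderiv ℂ f p v ≠ 0 := by
    by_contra h
    push Not at h
    exact hne (ContinuousLinearMap.ext h)
  obtain ⟨l, hl⟩ : ∃ l : F →L[ℂ] ℂ, l (fderiv ℂ f p v) = 1 := SeparatingDual.exists_eq_one hv
  set D : E →L[ℂ] F := fderiv ℂ f p with hD
  set w : F := D v with hw
  set A : E →L[ℂ] ℂ := l.comp D with hA
  have hAv : A v = 1 := hl
  set Φ : E → E := fun z => z + (l (f z) - l (f p) - A (z - p)) • v with hΦdef
  have hΦp : Φ p = p := by simp [hΦdef]
  have hΦc : ContDiffAt ℂ 1 Φ p := by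
    have h1 : ContDiffAt ℂ 1 (fun z => l (f z)) p := l.contDiff.contDiffAt.comp p hcd
    have h2 : ContDiffAt ℂ 1 (fun z : E => A (z - p)) p :=
      A.contDiff.contDiffAt.comp p (contDiffAt_id.sub contDiffAt_const)
    exact contDiffAt_id.add (((h1.sub contDiffAt_const).sub h2).smul contDiffAt_const)
  have hΦ' : HasFDerivAt Φ ((ContinuousLinearEquiv.refl ℂ E : E ≃L[ℂ] E) : E →L[ℂ] E) p := by
    have h1 : HasFDerivAt (fun z => l (f z)) (l.comp D) p := l.hasFDerivAt.comp p hfd
    have h2 : HasFDerivAt (fun z : E => A (z - p)) A p := by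
      have h3 : HasFDerivAt (fun z : E => z - p) (ContinuousLinearMap.id ℂ E) p :=
        (hasFDerivAt_id p).sub_const p
      have h4 : HasFDerivAt (fun z : E => A (z - p)) (A.comp (ContinuousLinearMap.id ℂ E)) p :=
        HasFDerivAt.comp (g := A) (f := fun z : E => z - p) p A.hasFDerivAt h3
      simpa using h4
    have h3 := (hasFDerivAt_id (𝕜 := ℂ) p).add
      (((h1.sub_const (l (f p))).sub h2).smul_const v)
    have h4 : ContinuousLinearMap.id ℂ E + (l.comp D - A).smulRight v =
        ((ContinuousLinearEquiv.refl ℂ E : E ≃L[ℂ] E) : E →L[ℂ] E) := by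
      ext x
      simp [hA]
    rw [← h4]
    exact h3
  have hst := hΦc.hasStrictFDerivAt' hΦ' one_ne_zero
  set Ψ : E → E := hst.localInverse Φ _ p with hΨ
  have hΨp : Ψ p = p := by
    have := hst.localInverse_apply_image
    rwa [hΦp] at this
  have hΨr : ∀ᶠ y in 𝓝 p, Φ (Ψ y) = y := by
    have := hst.eventually_right_inverse
    rwa [hΦp] at this
  have hΨd : HasStrictFDerivAt Ψ (ContinuousLinearMap.id ℂ E) p := by
    have := hst.to_localInverse
    rw [hΦp] at this
    simpa using this
  have hΨc : ContDiffAt ℂ 1 Ψ p := by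
    have := hΦc.to_localInverse hΦ' one_ne_zero
    rwa [hΦp] at this
  have hΨe : ∀ᶠ y in 𝓝 p, ContDiffAt ℂ 1 Ψ y := hΨc.eventually (by simp)
  have hΨU : ∀ᶠ y in 𝓝 p, Ψ y ∈ U := by
    have h1 : ContinuousAt Ψ p := hΨc.continuousAt
    exact h1.eventually_mem (by rw [hΨp]; exact hU.mem_nhds hp)
  -- the two kernels
  have hAs : Function.Surjective A := by
    intro c
    exact ⟨c • v, by rw [map_smul, hAv, smul_eq_mul, mul_one]⟩
  have hls : Function.Surjective l := by
    intro c
    exact ⟨c • w, by rw [map_smul, hl, smul_eq_mul, mul_one]⟩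
  have hK : Module.finrank ℂ (LinearMap.ker A.toLinearMap) = n := by
    have h1 := LinearMap.finrank_range_add_finrank_ker A.toLinearMap
    have h2 : LinearMap.range A.toLinearMap = ⊤ := LinearMap.range_eq_top.2 hAs
    rw [h2, finrank_top, Module.finrank_self, hE] at h1
    omega
  have hL : Module.finrank ℂ (LinearMap.ker l.toLinearMap) = n := by
    have h1 := LinearMap.finrank_range_add_finrank_ker l.toLinearMap
    have h2 : LinearMap.range l.toLinearMap = ⊤ := LinearMap.range_eq_top.2 hls
    rw [h2, finrank_top, Module.finrank_self, hF] at h1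
    omega
  set π : F →L[ℂ] (LinearMap.ker l.toLinearMap) :=
    (ContinuousLinearMap.id ℂ F - l.smulRight w).codRestrict (LinearMap.ker l.toLinearMap) (by
      intro y
      simp only [LinearMap.mem_ker, ContinuousLinearMap.coe_coe, sub_apply,
        ContinuousLinearMap.id_apply, ContinuousLinearMap.smulRight_apply, map_sub, map_smul,
        smul_eq_mul, hl, mul_one, sub_self]) with hπ
  have hπ1 : ∀ y : F, ((π y : LinearMap.ker l.toLinearMap) : F) = y - l y • w := by
    intro y
    rfl
  set g : (LinearMap.ker A.toLinearMap) → (LinearMap.ker l.toLinearMap) :=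
    fun k => π (f (Ψ (p + (k : E))) - f p) with hg
  have htend : Tendsto (fun k : LinearMap.ker A.toLinearMap => p + (k : E)) (𝓝 0) (𝓝 p) := by
    have h1 : Continuous (fun k : LinearMap.ker A.toLinearMap => p + (k : E)) := by fun_prop
    have h2 := h1.tendsto 0
    simpa using h2
  have hall := htend.eventually ((hΨr.and hΨe).and hΨU)
  obtain ⟨ε, hε, hball⟩ := Metric.eventually_nhds_iff_ball.1 hall
  have hker : ∀ k ∈ ball (0 : LinearMap.ker A.toLinearMap) ε,
      l (f (Ψ (p + (k : E))) - f p) = 0 := by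
    intro k hk
    have h1 := (hball k hk).1.1
    have h2 : A (Φ (Ψ (p + (k : E))) - p) = l (f (Ψ (p + (k : E)))) - l (f p) := by
      have h3 : Φ (Ψ (p + (k : E))) - p = (Ψ (p + (k : E)) - p) +
          (l (f (Ψ (p + (k : E)))) - l (f p) - A (Ψ (p + (k : E)) - p)) • v := by
        simp only [hΦdef]
        abel
      rw [h3, map_add, map_smul, hAv, smul_eq_mul, mul_one]
      ring
    rw [map_sub, ← h2, h1, add_sub_cancel_left]
    exact k.2
  have hgi : InjOn g (ball 0 ε) := by
    intro k hk k' hk' h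
    have h1 : ((g k : LinearMap.ker l.toLinearMap) : F) = f (Ψ (p + (k : E))) - f p := by
      simp only [hg]
      rw [hπ1, hker k hk, zero_smul, sub_zero]
    have h1' : ((g k' : LinearMap.ker l.toLinearMap) : F) = f (Ψ (p + (k' : E))) - f p := by
      simp only [hg]
      rw [hπ1, hker k' hk', zero_smul, sub_zero]
    have h2 : f (Ψ (p + (k : E))) = f (Ψ (p + (k' : E))) := by
      have h3 : f (Ψ (p + (k : E))) - f p = f (Ψ (p + (k' : E))) - f p := by
        rw [← h1, ← h1', h]
      exact sub_left_injective h3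
    have h3 := hinj (hball k hk).2 (hball k' hk').2 h2
    have h4 : p + (k : E) = p + (k' : E) := by
      rw [← (hball k hk).1.1, ← (hball k' hk').1.1, h3]
    exact Subtype.ext (add_left_cancel h4)
  have hgd : DifferentiableOn ℂ g (ball 0 ε) := by
    intro k hk
    apply DifferentiableAt.differentiableWithinAt
    have h1 : DifferentiableAt ℂ Ψ (p + (k : E)) :=
      (hball k hk).1.2.differentiableAt (by simp)
    have h2 : DifferentiableAt ℂ (fun k : LinearMap.ker A.toLinearMap => p + (k : E)) k :=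
      ((LinearMap.ker A.toLinearMap).subtypeL.differentiableAt).const_add p
    have h3 : DifferentiableAt ℂ f (Ψ (p + (k : E))) :=
      hf.differentiableAt (hU.mem_nhds (hball k hk).2)
    have h4 : DifferentiableAt ℂ (fun k : LinearMap.ker A.toLinearMap => Ψ (p + (k : E))) k :=
      DifferentiableAt.comp (g := Ψ) k h1 h2
    have h5 : DifferentiableAt ℂ (fun k : LinearMap.ker A.toLinearMap => f (Ψ (p + (k : E)))) k :=
      DifferentiableAt.comp (g := f) k h3 h4
    exact π.differentiableAt.comp k (h5.sub_const (f p))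
  have hres := hn (LinearMap.ker A.toLinearMap) (LinearMap.ker l.toLinearMap) hK hL g (ball 0 ε)
    isOpen_ball hgd hgi 0 (mem_ball_self hε)
  have hg0 : HasFDerivAt g (π.comp (D.comp (LinearMap.ker A.toLinearMap).subtypeL)) 0 := by
    have h2 : HasFDerivAt (fun k : LinearMap.ker A.toLinearMap => p + (k : E))
        (LinearMap.ker A.toLinearMap).subtypeL 0 :=
      ((LinearMap.ker A.toLinearMap).subtypeL.hasFDerivAt).const_add p
    have h1 : HasFDerivAt Ψ (ContinuousLinearMap.id ℂ E)
        (p + ((0 : LinearMap.ker A.toLinearMap) : E)) := by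
      simpa using hΨd.hasFDerivAt
    have h3 : HasFDerivAt (fun k : LinearMap.ker A.toLinearMap => Ψ (p + (k : E)))
        ((ContinuousLinearMap.id ℂ E).comp (LinearMap.ker A.toLinearMap).subtypeL) 0 :=
      HasFDerivAt.comp (g := Ψ) 0 h1 h2
    have h4 : HasFDerivAt f D (Ψ (p + ((0 : LinearMap.ker A.toLinearMap) : E))) := by
      rw [ZeroMemClass.coe_zero, add_zero, hΨp]
      exact hfd
    have h5 : HasFDerivAt (fun k : LinearMap.ker A.toLinearMap => f (Ψ (p + (k : E))))
        (D.comp ((ContinuousLinearMap.id ℂ E).comp (LinearMap.ker A.toLinearMap).subtypeL)) 0 :=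
      HasFDerivAt.comp (g := f) 0 h4 h3
    have h6 := π.hasFDerivAt.comp 0 (h5.sub_const (f p))
    exact h6
  rw [hg0.fderiv] at hres
  refine (injective_iff_map_eq_zero D).2 ?_
  intro x hx
  have hxA : x ∈ LinearMap.ker A.toLinearMap := by
    rw [LinearMap.mem_ker]
    show l (D x) = 0
    rw [hx, map_zero]
  have h1 : (π.comp (D.comp (LinearMap.ker A.toLinearMap).subtypeL)) ⟨x, hxA⟩ = 0 := by
    show π (D x) = 0
    rw [hx, map_zero]
  have h2 := (injective_iff_map_eq_zero _).1 hres _ h1
  exact congrArg Subtype.val h2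

end Pool.Agent.H6.FB
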